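import Pool.Agent.N393.ChromMain

/-! Withdrawn hand-in (frozen statement of MP_31cced_co): the inequality is a theorem of Avis, De Simone and
Nobili, On the chromatic polynomial of a graph, Math. Programming Ser. B 92 (2002). -/

set_option autoImplicit false

namespace Pool.Agent.N393.Shelf.CliqueRatio

/-- For every finite simple graph G on n vertices with clique number ω and every integer λ ≥ n, the number of proper (λ−1)-colourings divided by the number of proper λ-colourings is at most (1−ω/λ)(1−1/λ)^(n−ω). -/
theorem result :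
    ∀ (V : Type) [Fintype V] (G : SimpleGraph V) (lam : ℕ),
      Fintype.card V ≤ lam →
      (Nat.card (G.Coloring (Fin (lam - 1))) : ℝ) / (Nat.card (G.Coloring (Fin lam)) : ℝ)
        ≤ (1 - ((sSup {k : ℕ | ∃ s : Finset V, G.IsNClique k s} : ℕ) : ℝ) / (lam : ℝ))
          * (1 - 1 / (lam : ℝ)) ^ (Fintype.card V - sSup {k : ℕ | ∃ s : Finset V, G.IsNClique k s}) := by
  intro V _ G lam hle
  classical
  obtain ⟨K, hK⟩ := G.exists_isNClique_cliqueNum
  have hω : sSup {k : ℕ | ∃ s : Finset V, G.IsNClique k s} = K.card := by
    have h1 : G.cliqueNum = sSup {k : ℕ | ∃ s : Finset V, G.IsNClique k s} := rfl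
    rw [← h1, hK.card_eq]
  rw [hω]
  have hKle : K.card ≤ Fintype.card V := Finset.card_le_univ K
  rcases Nat.eq_zero_or_pos lam with h0 | hpos
  · subst h0
    have hV : Fintype.card V = 0 := by omega
    have hKc : K.card = 0 := by omega
    rw [hV, hKc]
    simp only [Nat.cast_zero, div_zero, sub_zero, Nat.sub_self, pow_zero, mul_one]
    exact div_self_le_one _
  · obtain ⟨m, rfl⟩ : ∃ m, lam = m + 1 := ⟨lam - 1, by omega⟩
    have hc : (Kᶜ).card = Fintype.card V - K.card := Finset.card_compl K
    have h := Pool.Agent.N393.Chrom.clique_ratio G m K hK.isClique (by omega) (by omega)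
    rw [hc] at h
    rw [Nat.add_sub_cancel]
    exact h

end Pool.Agent.N393.Shelf.CliqueRatio
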